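import Pool.Agent.Q325.TdsMem

/-!
# Deciding whether the total and the sub-total domination numbers agree is NP-complete

Definitions: `Pool/Agent/Q325/TdsDefs.lean` and `Pool/Agent/H622R2/MatGraph.lean`; complexity
classes: `Pool/Agent/NPC/Defs.lean`.

The reduction is from exact cover by 3-sets, with `m` triples and `3 q` elements. For every triple
`t` there is a complete bipartite graph with sides `A_t` of size `m - 2` and `B_t` of size `m + 1`;
one vertex of `B_t` is adjacent to the three elements of `t`, `m - q` vertices of `B_t` are adjacent
to three dummy elements each (the same ones for all `t`), and `q` vertices of `B_t` have no further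
neighbours. The graph has `2 m (m + 1)` vertices and largest degree `m + 1`, attained on all the
sides `A_t`, so the sub-total domination number is `2 m`; a total dominating set of size `2 m` has
exactly one vertex in every `A_t` and in every `B_t`.
-/

set_option autoImplicit false

namespace Pool.Agent.Results.MP_bfbf95_lc.TdsEqComplete

open Pool.Agent.NPC Pool.Agent.Q325.TDS

/-- **TDS-EQ is NP-complete.** -/
theorem result : InNPP TDSEQ ∧ NPHardP TDSEQ :=
  ⟨Pool.Agent.NPC.Q325TDS.inNP, Pool.Agent.NPC.Q325TDS.hard.toNPHardP⟩

end Pool.Agent.Results.MP_bfbf95_lc.TdsEqComplete
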